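import Pool.Agent.TKN.OneAll
import Pool.Agent.TKN.OneAllR

/-!
# Programs of linear length: PP is exponentially outside of NP and coNP

One explicit function `fF` of `N = size M + 1` bits. It is accepted in PP mode, with `w` coins,
`2 ^ w ≤ N ^ 24`, by automata with at most `N ^ 24` states that read the `N` bits once from left to
right. But for every `k` there is a `c > 0` such that, for all large `M`, neither this function nor
its complement has a nondeterministic branching program (even with one unlimited stack), or an
AND/OR circuit, with fewer than `2 ^ (c N)` nodes, in which each accepted input has an accepting run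
(proof tree) with at most `k N` tests outside of a set of at most `c N` variables.
-/

set_option autoImplicit false

namespace Pool.Agent.Results.MP_153864_lc.NPcoNPLongRuns

open Pool.Agent.TKN (TimeSR TimeFR)
open Pool.Agent.TKN.ONE (Bas Lay fF size)
open Pool.Agent.HPM (DecOs)

/-- **Theorem.** (1) For `M ≥ 2 ^ 56` the number `N = size M + 1` of the bits is between `2 M` and
`3 M`, there are bases `β` and layouts `ly`, and for all of them the function `fF β ly` is accepted
in PP mode: more than half of `2 ^ w ≤ N ^ 24` automata, which have at most `N ^ 24` states and read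
the bit number `t` at time `t`, for `t = 0, …, N - 1`, accept exactly if the value is `1`.
(2) For every `k ≥ 1` there are `c > 0` and `M0` such that for all `M ≥ M0`, all bases and layouts,
and for `f` the function `fF β ly` or its complement: every nondeterministic program with one stack
over any alphabet (every fork program) which computes `f` and tests at most `s ≤ c N` bits on each
edge, such that every accepted input has an accepting run (tree) with at most `k N` tests outside of
a set of at most `s` variables, has at least `2 ^ (c N)` nodes. -/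
theorem result :
    (∀ M : ℕ, 2 ^ 56 ≤ M → (2 * M ≤ size M + 1 ∧ size M + 1 ≤ 3 * M) ∧
      Nonempty (Bas M) ∧ Nonempty (Lay M) ∧ ∀ (β : Bas M) (ly : Lay M),
      ∃ (V : Type) (_ : Fintype V) (w : ℕ), Fintype.card V ≤ (size M + 1) ^ 24 ∧
        2 ^ w ≤ (size M + 1) ^ 24 ∧
        UM.InPP (DecOs 1 (Fin (size M + 1)) V (size M + 1) (fun t _ => t)) w
          (fun v => fF β ly v = true)) ∧
    ∀ k : ℕ, 1 ≤ k → ∃ c : ℝ, 0 < c ∧ ∃ M0 : ℕ, ∀ M ≥ M0, ∀ (β : Bas M) (ly : Lay M)
      (f : (Fin (size M + 1) → Bool) → Bool), f = fF β ly ∨ f = (fun v => !fF β ly v) →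
      (∀ (Γ Q : Type) [Fintype Q] (G : STK.Prog (Fin (size M + 1)) 1 Γ Q) (s : ℕ),
        (s : ℝ) ≤ c * (size M + 1 : ℕ) → G.Blocks s → TimeSR G s (k * (size M + 1)) →
        G.Computes f → (2 : ℝ) ^ (c * (size M + 1 : ℕ)) ≤ Fintype.card Q) ∧
      ∀ (Q : Type) [Fintype Q] (G : CFT.FP (Fin (size M + 1)) Q) (s : ℕ),
        (s : ℝ) ≤ c * (size M + 1 : ℕ) → G.Block s → TimeFR G s (k * (size M + 1)) →
        G.Computes f → (2 : ℝ) ^ (c * (size M + 1 : ℕ)) ≤ Fintype.card Q := by
  obtain ⟨h1, h2⟩ := Pool.Agent.TKN.ONE.mainFR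
  refine ⟨fun M hM => ?_, fun k hk => ?_⟩
  · obtain ⟨a, b, d, e⟩ := h1 M hM
    refine ⟨a, b, d, fun β ly => ?_⟩
    obtain ⟨V, hV, w, g1, g2, g3⟩ := e β ly
    exact ⟨V, hV, w, g1.trans (Nat.pow_le_pow_left (Nat.le_succ _) 24),
      g2.trans (Nat.pow_le_pow_left (Nat.le_succ _) 24), g3⟩
  · obtain ⟨c, hc, M0, h⟩ := h2 k hk
    refine ⟨c, hc, M0, fun M hM β ly f hf => ?_⟩
    rcases hf with rfl | rfl
    · exact (h M hM β ly).1
    · exact (h M hM β ly).2

end Pool.Agent.Results.MP_153864_lc.NPcoNPLongRuns
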