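import Pool.Agent.TKN.OneAllR

/-!
# Nondeterministic Boolean programs of length `k N`, for every constant `k`

`fA` is an explicit function of `N` variables whose complement has nondeterministic OBDDs of
polynomial size, and which has deterministic oblivious machines with polynomially many states. For
every `k` every nondeterministic Boolean branching program for `fA`, even with one unlimited stack
and with tests of `c N` bits at once, such that each accepted input has an accepting run with at most
`k N` tests (the tests of `c N` variables, which may depend on the input and the run, are not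
counted), has at least `2 ^ (c N)` nodes. The same holds for AND/OR circuits over literals with proof
trees in place of runs.
-/

set_option autoImplicit false

namespace Pool.Agent.TKN.Retired.NondetLinearLength

open Pool.Agent.CFT (FP)
open Pool.Agent.STK (Prog)
open Pool.Agent.HPM (DecOs)
open Pool.Agent.TKN (TimeSR TimeFR)
open Pool.Agent.TKN.ONE (Bas Lay size fA)

/-- **Theorem.** For `M ≥ 2 ^ 56`, with `N = size M`, `2 M ≤ N ≤ 3 M`, the function `fA` of `N` bits
(for any bases `β` and any layout `ly`) has the following properties.
(2) Its complement has a program without stack, with at most `N ^ 24` nodes and single tests, in which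
the variables are tested in increasing order on every full run.
(3) The function itself has a deterministic machine with at most `N ^ 24` states, which reads one
bit, fixed in advance, at each of `T ≤ N ^ 24` steps.
(1) For every `k` there are `c > 0` and `M0` such that for `M ≥ M0` and `s ≤ c N` a program with ONE
stack, over any alphabet, for `fA`, with at most `s` tests on each edge, has at least `2 ^ (c N)`
nodes if each accepted input has an accepting run with at most `k N` tests of variables outside a set
of at most `s` variables; the same holds for AND/OR circuits over literals (`FP`: an OR is a choice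
between edges, an AND is a fork; loops are allowed), with proof trees in place of runs. -/
theorem result :
    (∀ M : ℕ, 2 ^ 56 ≤ M → (2 * M ≤ size M ∧ size M ≤ 3 * M) ∧ Nonempty (Bas M) ∧
      Nonempty (Lay M) ∧ ∀ (β : Bas M) (ly : Lay M),
      (∃ (Q : Type) (_ : Fintype Q) (G : Prog (Fin (size M)) 0 Empty Q), G.Blocks 1 ∧
        (∀ l, G.Full l → (l.map Prod.fst).Pairwise (· < ·)) ∧
        G.Computes (fun v => !fA β ly v) ∧ Fintype.card Q ≤ size M ^ 24) ∧
      ∃ (V : Type) (_ : Fintype V) (T : ℕ) (σ : Fin T → Fin 1 → Fin (size M)),
        Fintype.card V ≤ size M ^ 24 ∧ T ≤ size M ^ 24 ∧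
        DecOs 1 (Fin (size M)) V T σ (fun v => fA β ly v = true)) ∧
    ∀ k : ℕ, 1 ≤ k → ∃ c : ℝ, 0 < c ∧ ∃ M0 : ℕ, ∀ M ≥ M0, ∀ (β : Bas M) (ly : Lay M) (N s : ℕ),
      N = size M → (s : ℝ) ≤ c * N →
      (∀ (Γ Q : Type) [Fintype Q] (G : Prog (Fin (size M)) 1 Γ Q), G.Blocks s →
        TimeSR G s (k * N) → G.Computes (fA β ly) → (2 : ℝ) ^ (c * N) ≤ Fintype.card Q) ∧
      ∀ (Q : Type) [Fintype Q] (G : FP (Fin (size M)) Q), G.Block s → TimeFR G s (k * N) →
        G.Computes (fA β ly) → (2 : ℝ) ^ (c * N) ≤ Fintype.card Q := by
  refine ⟨Pool.Agent.TKN.ONE.mainAR.1, ?_⟩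
  intro k hk
  obtain ⟨c, hc, M0, h⟩ := Pool.Agent.TKN.ONE.mainAR.2 k hk
  refine ⟨c, hc, M0, ?_⟩
  rintro M hM β ly N s rfl hs
  obtain ⟨h1, h2⟩ := h M hM β ly
  exact ⟨fun Γ Q _ G hb ht hf => h1 Γ Q G s hs hb ht hf, fun Q _ G hb ht hf => h2 Q G s hs hb ht hf⟩

end Pool.Agent.TKN.Retired.NondetLinearLength
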